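import Pool.Agent.W770.KP.Stm

set_option autoImplicit false

open scoped Classical
open Pool.Agent.W770.KP

namespace Pool.Agent.W764.KP

theorem inner_eq {F : Type} [Field F] [Fintype F] {n : ℕ} (f : (Fin n → F) → ℝ)
    (a : Fin n → F) (W : Submodule F (Fin n → F)) :
    (∑ᶠ w : W, |f (a + (w : Fin n → F))|) = PS (fun x => |f x|) a W := by
  have : Fintype W := Fintype.ofFinite _
  rw [finsum_eq_sum_of_fintype]
  unfold PS
  rw [← Finset.sum_filter]
  refine Finset.sum_bij (fun (w : W) _ => a + (w : Fin n → F)) ?_ ?_ ?_ ?_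
  · intro w _
    simp only [Finset.mem_filter, Finset.mem_univ, true_and, add_sub_cancel_left]
    exact w.2
  · intro w _ w' _ h
    exact Subtype.ext (add_left_cancel h)
  · intro x hx
    rw [Finset.mem_filter] at hx
    exact ⟨⟨x - a, hx.2⟩, Finset.mem_univ _, by simp⟩
  · intro w _
    rfl

theorem t_FIN : S_FIN := by
  intro hSA n k hk hkn
  obtain ⟨C, hC, h⟩ := hSA n k hk hkn
  refine ⟨C, hC, ?_⟩
  intro F _ _ f
  have hch : ∀ W : Submodule F (Fin n → F), ∃ a : Fin n → F,
      PS (fun x => |f x|) a W = ⨆ a : Fin n → F, PS (fun x => |f x|) a W := fun W =>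
    exists_eq_ciSup_of_finite
  choose a ha using hch
  have key := h F (Fin n → F) (by simp) (fun x => |f x|) (fun x => abs_nonneg _) a
  have : Fintype {W : Submodule F (Fin n → F) // Module.finrank F W = k} := Fintype.ofFinite _
  have hL : (∑ᶠ W : {W : Submodule F (Fin n → F) // Module.finrank F W = k},
            (⨆ a : Fin n → F, ∑ᶠ w : W.1, |f (a + (w : Fin n → F))|) ^ n)
      = ∑ W ∈ Gr F (Fin n → F) k, (PS (fun x => |f x|) (a W) W) ^ n := by
    rw [finsum_eq_sum_of_fintype]
    rw [Finset.sum_subtype (Gr F (Fin n → F) k) (p := fun W : Submodule F (Fin n → F) => Module.finrank F W = k)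
      (by intro W; simp [Gr])]
    refine Finset.sum_congr rfl ?_
    intro W _
    congr 1
    rw [ha W.1]
    refine iSup_congr ?_
    intro b
    exact inner_eq f b W.1
  have hN : Nat.card {W : Submodule F (Fin n → F) // Module.finrank F W = k}
      = (Gr F (Fin n → F) k).card := by
    rw [Nat.card_eq_fintype_card]
    rw [Fintype.card_of_subtype (Gr F (Fin n → F) k) (by intro W; simp [Gr])]
  rw [hL, hN]
  exact key

end Pool.Agent.W764.KP
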